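import Pool.Agent.Helper34.Bmo.Nec

set_option autoImplicit false

namespace Pool.Agent.Results.MP_2feb19_an.Characterization

open Pool.Agent.Helper34.Bmo

/-- For both choices `X = BMO_ω` and `X = BMO_ω ∩ L^∞`, `(ω, X)` has the division property if and
only if `ω(t)/t` is almost decreasing on `(0, 1/2]`. -/
theorem result (ω : ℝ → ℝ) (hω : IsModulus ω) :
    (DivisionProperty ω (InBMO ω) ↔ AlmostDecreasing ω) ∧
      (DivisionProperty ω (fun f => InBMO ω f ∧ InLinf f) ↔ AlmostDecreasing ω) :=
  main ω hω

end Pool.Agent.Results.MP_2feb19_an.Characterization
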